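import Mathlib

namespace Pool.Agent.Results.MP_a437dc_al.No

open Function

/-- multiplication by `p` on the group of integers -/
def mulBy (p : ℕ) : Multiplicative ℤ →* Multiplicative ℤ := powMonoidHom p

/-- `T` is local: precomposition with multiplication by `p` is a bijection on `Hom(ℤ, T)`
for every prime `p`. -/
def IsLocal (T : Type) [Group T] : Prop :=
  ∀ p : ℕ, p.Prime → Bijective (fun f : Multiplicative ℤ →* T => f.comp (mulBy p))

/-- A localization (rationalization) of the group `G`: a universal homomorphism to a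
local group. -/
structure Loc (G : Type) [Group G] where
  carrier : Type
  [grp : Group carrier]
  eta : G →* carrier
  loc : IsLocal carrier
  univ : ∀ (T : Type) [Group T], IsLocal T → ∀ f : G →* T, ∃! g : carrier →* T, g.comp eta = f

attribute [instance] Loc.grp

/-- `1 → N → E → G → 1` is a short exact sequence -/
def ShortExact {N E G : Type} [Group N] [Group E] [Group G] (i : N →* E) (q : E →* G) : Prop :=
  Injective i ∧ Surjective q ∧ q.ker = i.range

/-- The extension is `L`-flat: the induced sequence of localizations is short exact. -/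
def Flat {N E G : Type} [Group N] [Group E] [Group G] (i : N →* E) (q : E →* G) : Prop :=
  ∀ (LN : Loc N) (LE : Loc E) (LG : Loc G) (i' : LN.carrier →* LE.carrier)
    (q' : LE.carrier →* LG.carrier), i'.comp LN.eta = LE.eta.comp i →
    q'.comp LE.eta = LG.eta.comp q → ShortExact i' q'

/-- the fibre product `E ×_G H` -/
def Pull {E G H : Type} [Group E] [Group G] [Group H] (q : E →* G) (a : H →* G) :
    Subgroup (E × H) :=
  (q.comp (MonoidHom.fst E H)).eqLocus (a.comp (MonoidHom.snd E H))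

/-- the inclusion `N → E ×_G H`, `n ↦ (i n, 1)` -/
def pullIn {N E G H : Type} [Group N] [Group E] [Group G] [Group H] {i : N →* E} {q : E →* G}
    (h : ShortExact i q) (a : H →* G) : N →* Pull q a :=
  (i.prod 1).codRestrict (Pull q a) (fun n => by
    have : i n ∈ q.ker := by rw [h.2.2]; exact ⟨n, rfl⟩
    simpa [Pull, MonoidHom.eqLocus] using this)

/-- the projection `E ×_G H → H` -/
def pullPr {E G H : Type} [Group E] [Group G] [Group H] (q : E →* G) (a : H →* G) :
    Pull q a →* H :=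
  (MonoidHom.snd E H).comp (Pull q a).subtype

lemma isLocal_iff (T : Type) [Group T] :
    IsLocal T ↔ ∀ p : ℕ, p.Prime → Bijective (fun x : T => x ^ p) := by
  unfold IsLocal
  refine forall_congr' fun p => forall_congr' fun _ => ?_
  have : (fun f : Multiplicative ℤ →* T => f.comp (mulBy p)) =
      (zpowersHom T) ∘ (fun x : T => x ^ p) ∘ (zpowersHom T).symm := by
    funext f
    apply MonoidHom.ext_mint
    simp [mulBy]
  rw [this, Equiv.comp_bijective, Equiv.bijective_comp]

inductive Tm (G : Type) : Type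
  | of : G → Tm G
  | mul : Tm G → Tm G → Tm G
  | inv : Tm G → Tm G
  | root : ℕ → Tm G → Tm G

noncomputable def ev {G T : Type} [Group T] (f : G → T) : Tm G → T
  | .of g => f g
  | .mul a b => ev f a * ev f b
  | .inv a => (ev f a)⁻¹
  | .root p a => if p.Prime then invFun (fun x : T => x ^ p) (ev f a) else ev f a

def st (G : Type) [Group G] : Setoid (Tm G) where
  r a b := ∀ (T : Type) [Group T], IsLocal T → ∀ f : G →* T, ev f a = ev f b
  iseqv := ⟨fun _ _ _ _ _ => rfl, fun h T _ l f => (h T l f).symm,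
    fun h h' T _ l f => (h T l f).trans (h' T l f)⟩

def LL (G : Type) [Group G] := Quotient (st G)

instance (G : Type) [Group G] : Mul (LL G) :=
  ⟨Quotient.map₂ Tm.mul (fun _ _ h _ _ h' T _ l f => by simp only [ev, h T l f, h' T l f])⟩
instance (G : Type) [Group G] : One (LL G) := ⟨Quotient.mk _ (Tm.of 1)⟩
instance (G : Type) [Group G] : Inv (LL G) :=
  ⟨Quotient.map Tm.inv (fun _ _ h T _ l f => by simp only [ev, h T l f])⟩

instance (G : Type) [Group G] : Group (LL G) :=
  Group.ofLeftAxioms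
    (by
      rintro ⟨a⟩ ⟨b⟩ ⟨c⟩
      exact Quotient.sound (fun T _ l f => by simp only [ev, mul_assoc]))
    (by
      rintro ⟨a⟩
      exact Quotient.sound (fun T _ l f => by simp only [ev, map_one, one_mul]))
    (by
      rintro ⟨a⟩
      exact Quotient.sound (fun T _ l f => by simp only [ev, map_one, inv_mul_cancel]))

def mk' {G : Type} [Group G] (a : Tm G) : LL G := Quotient.mk _ a

noncomputable def evH {G T : Type} [Group G] [Group T] (l : IsLocal T) (f : G →* T) :
    LL G →* T :=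
  MonoidHom.mk' (Quotient.lift (ev f) (fun _ _ h => h T l f)) (by rintro ⟨a⟩ ⟨b⟩; rfl)

lemma LL_ext {G : Type} [Group G] (x y : LL G)
    (h : ∀ (T : Type) [Group T] (l : IsLocal T) (f : G →* T), evH l f x = evH l f y) : x = y := by
  obtain ⟨a⟩ := x
  obtain ⟨b⟩ := y
  exact Quotient.sound (fun T _ l f => h T l f)

lemma root_pow {G : Type} [Group G] (p : ℕ) (hp : p.Prime) (a : Tm G) :
    mk' (Tm.root p a) ^ p = mk' a := by
  apply LL_ext
  intro T _ l f
  rw [map_pow]
  change (ev f (Tm.root p a)) ^ p = ev f a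
  simp only [ev, hp, if_true]
  exact rightInverse_invFun ((isLocal_iff T).1 l p hp).2 _

noncomputable def theLoc (G : Type) [Group G] : Loc G where
  carrier := LL G
  eta := MonoidHom.mk' (fun g => Quotient.mk _ (Tm.of g))
    (fun a b => Quotient.sound (fun T _ l f => by simp only [ev, map_mul]))
  loc := by
    rw [isLocal_iff]
    intro p hp
    constructor
    · intro x y h
      apply LL_ext
      intro T _ l f
      apply ((isLocal_iff T).1 l p hp).1
      have := congrArg (evH l f) h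
      simpa only [map_pow] using this
    · rintro ⟨a⟩
      exact ⟨mk' (Tm.root p a), root_pow p hp a⟩
  univ := by
    intro T _ l f
    refine ⟨evH l f, by ext; rfl, ?_⟩
    intro g hg
    ext ⟨a⟩
    change g (mk' a) = evH l f (mk' a)
    induction a with
    | of x => exact DFunLike.congr_fun hg x
    | mul a b ha hb =>
      change g (mk' a * mk' b) = evH l f (mk' a * mk' b)
      rw [map_mul, map_mul, ha, hb]
    | inv a ha =>
      change g (mk' a)⁻¹ = evH l f (mk' a)⁻¹
      rw [map_inv, map_inv, ha]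
    | root p a ha =>
      by_cases hp : p.Prime
      · apply ((isLocal_iff T).1 l p hp).1
        simp only [← map_pow, root_pow p hp, ha]
      · have : (mk' (Tm.root p a) : LL G) = mk' a :=
          Quotient.sound (fun T _ l f => by simp only [ev, hp, if_false])
        rw [this, ha]

lemma eta_bij {G : Type} [Group G] (l : IsLocal G) (L : Loc G) : Bijective L.eta := by
  obtain ⟨r, hr, -⟩ := L.univ G l (MonoidHom.id G)
  obtain ⟨s, -, hs⟩ := L.univ L.carrier L.loc L.eta
  have h1 := hs (MonoidHom.id _) (by simp)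
  have h2 := hs (L.eta.comp r) (by simp only; rw [MonoidHom.comp_assoc, hr]; simp)
  constructor
  · exact LeftInverse.injective (g := r) (fun x => DFunLike.congr_fun hr x)
  · intro y
    exact ⟨r y, DFunLike.congr_fun (h2.trans h1.symm) y⟩

lemma flat_of_local {N E G : Type} [Group N] [Group E] [Group G] {i : N →* E} {q : E →* G}
    (h : ShortExact i q) (lN : IsLocal N) (lE : IsLocal E) (lG : IsLocal G) : Flat i q := by
  intro LN LE LG i' q' hi hq
  have bN := eta_bij lN LN
  have bE := eta_bij lE LE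
  have bG := eta_bij lG LG
  have hi' : ∀ n, i' (LN.eta n) = LE.eta (i n) := fun n => DFunLike.congr_fun hi n
  have hq' : ∀ n, q' (LE.eta n) = LG.eta (q n) := fun n => DFunLike.congr_fun hq n
  refine ⟨?_, ?_, ?_⟩
  · intro x y hxy
    obtain ⟨x, rfl⟩ := bN.2 x
    obtain ⟨y, rfl⟩ := bN.2 y
    rw [hi', hi'] at hxy
    rw [h.1 (bE.1 hxy)]
  · intro y
    obtain ⟨y, rfl⟩ := bG.2 y
    obtain ⟨x, rfl⟩ := h.2.1 y
    exact ⟨_, hq' x⟩
  · ext x
    obtain ⟨x, rfl⟩ := bE.2 x
    rw [MonoidHom.mem_ker, hq', ← map_one LG.eta, bG.1.eq_iff, ← MonoidHom.mem_ker, h.2.2]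
    constructor
    · rintro ⟨n, rfl⟩
      exact ⟨_, hi' n⟩
    · rintro ⟨n, hn⟩
      obtain ⟨n, rfl⟩ := bN.2 n
      rw [hi'] at hn
      exact ⟨n, bE.1 hn⟩

/-- the group of maps `x ↦ 2 ^ t * x + b` -/
@[ext] structure A where
  t : ℝ
  b : ℝ

noncomputable instance : Mul A := ⟨fun x y => ⟨x.t + y.t, x.b + 2 ^ x.t * y.b⟩⟩
instance : One A := ⟨⟨0, 0⟩⟩
noncomputable instance : Inv A := ⟨fun x => ⟨-x.t, -(2 ^ (-x.t) * x.b)⟩⟩
@[simp] lemma mul_t (x y : A) : (x * y).t = x.t + y.t := rfl
@[simp] lemma mul_b (x y : A) : (x * y).b = x.b + 2 ^ x.t * y.b := rfl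
@[simp] lemma one_t : (1 : A).t = 0 := rfl
@[simp] lemma one_b : (1 : A).b = 0 := rfl
@[simp] lemma inv_t (x : A) : (x⁻¹).t = -x.t := rfl
@[simp] lemma inv_b (x : A) : (x⁻¹).b = -(2 ^ (-x.t) * x.b) := rfl

noncomputable instance : Group A :=
  Group.ofLeftAxioms
    (fun x y z => by
      ext
      · simp [add_assoc]
      · simp only [mul_t, mul_b, Real.rpow_add (show (0:ℝ) < 2 by norm_num)]; ring)
    (fun x => by ext <;> simp)
    (fun x => by ext <;> simp)

lemma pow_A (x : A) (n : ℕ) :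
    x ^ n = ⟨n * x.t, (∑ k ∈ Finset.range n, ((2:ℝ) ^ x.t) ^ k) * x.b⟩ := by
  induction n with
  | zero => ext <;> simp
  | succ n ih =>
    rw [pow_succ, ih]
    ext
    · simp; ring
    · simp only [mul_b, Finset.sum_range_succ]
      rw [mul_comm (n : ℝ), Real.rpow_mul_natCast (by norm_num)]
      ring

lemma local_A : IsLocal A := by
  rw [isLocal_iff]
  intro p hp
  have h0 : (p : ℝ) ≠ 0 := by exact_mod_cast hp.ne_zero
  have h1 : ∀ t : ℝ, (∑ k ∈ Finset.range p, ((2:ℝ) ^ t) ^ k) ≠ 0 := fun t =>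
    (Finset.sum_pos (fun _ _ => by positivity) ⟨0, Finset.mem_range.2 hp.pos⟩).ne'
  constructor
  · intro x y h
    simp only [pow_A, A.mk.injEq] at h
    have ht : x.t = y.t := mul_left_cancel₀ h0 h.1
    ext
    · exact ht
    · have := h.2
      rw [ht] at this
      exact mul_left_cancel₀ (h1 _) this
  · intro y
    refine ⟨⟨y.t / p, y.b / (∑ k ∈ Finset.range p, ((2:ℝ) ^ (y.t / p)) ^ k)⟩, ?_⟩
    simp only [pow_A]
    ext
    · simp only; field_simp
    · simp only; rw [mul_div_cancel₀ _ (h1 _)]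

lemma local_R : IsLocal (Multiplicative ℝ) := by
  rw [isLocal_iff]
  intro p hp
  have h0 : (p : ℝ) ≠ 0 := by exact_mod_cast hp.ne_zero
  constructor
  · intro x y h
    have := congrArg Multiplicative.toAdd h
    simp only [toAdd_pow, nsmul_eq_mul] at this
    exact Multiplicative.toAdd.injective (mul_left_cancel₀ h0 this)
  · intro y
    refine ⟨Multiplicative.ofAdd (y.toAdd / p), ?_⟩
    apply Multiplicative.toAdd.injective
    simp only [toAdd_pow, nsmul_eq_mul, toAdd_ofAdd]
    field_simp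

noncomputable def iA : Multiplicative ℝ →* A :=
  MonoidHom.mk' (fun x => ⟨0, x.toAdd⟩) (fun x y => by ext <;> simp)

noncomputable def qA : A →* Multiplicative ℝ :=
  MonoidHom.mk' (fun x => Multiplicative.ofAdd x.t) (fun x y => by simp [ofAdd_add])

noncomputable def aZ : Multiplicative ℤ →* Multiplicative ℝ :=
  AddMonoidHom.toMultiplicative (Int.castAddHom ℝ)

lemma se : ShortExact iA qA := by
  refine ⟨?_, ?_, ?_⟩
  · intro x y h
    exact Multiplicative.toAdd.injective (congrArg A.b h)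
  · intro y
    exact ⟨⟨y.toAdd, 0⟩, rfl⟩
  · ext x
    constructor
    · intro h
      have : x.t = 0 := congrArg Multiplicative.toAdd h
      exact ⟨Multiplicative.ofAdd x.b, A.ext this.symm rfl⟩
    · rintro ⟨n, rfl⟩
      rfl

noncomputable def fA (φ : ℝ →ₗ[ℚ] ℝ) : Pull qA aZ →* A :=
  MonoidHom.mk' (fun x => ⟨x.1.1.t, φ x.1.1.b⟩) (fun x y => by
    have hx : x.1.1.t = (x.1.2.toAdd : ℝ) := congrArg Multiplicative.toAdd x.2
    ext
    · rfl
    · change φ (x.1.1.b + 2 ^ x.1.1.t * y.1.1.b) = φ x.1.1.b + 2 ^ x.1.1.t * φ y.1.1.b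
      have : (2:ℝ) ^ x.1.1.t = (((2:ℚ) ^ x.1.2.toAdd : ℚ) : ℝ) := by
        rw [hx, Real.rpow_intCast]; push_cast; rfl
      rw [map_add, this, ← Rat.smul_def, ← Rat.smul_def, map_smul])

theorem result : ∃ (N E G H : Type) (_ : Group N) (_ : Group E) (_ : Group G) (_ : Group H)
    (i : N →* E) (q : E →* G) (h : ShortExact i q) (a : H →* G),
    Flat i q ∧ ¬ Flat (pullIn h a) (pullPr q a) := by
  refine ⟨_, _, _, _, _, _, _, _, iA, qA, se, aZ, flat_of_local se local_R local_A local_R, ?_⟩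
  intro hf
  set LN := theLoc (Multiplicative ℝ)
  set LP := theLoc (Pull qA aZ)
  set LH := theLoc (Multiplicative ℤ)
  obtain ⟨i', hi, -⟩ := LN.univ LP.carrier LP.loc (LP.eta.comp (pullIn se aZ))
  obtain ⟨q', hq, -⟩ := LP.univ LH.carrier LH.loc (LH.eta.comp (pullPr qA aZ))
  obtain ⟨-, -, hk⟩ := hf LN LP LH i' q' hi hq
  have hi' : ∀ n, i' (LN.eta n) = LP.eta (pullIn se aZ n) := fun n => DFunLike.congr_fun hi n
  let τ : Pull qA aZ := ⟨(⟨1, 0⟩, Multiplicative.ofAdd 1), by
    change Multiplicative.ofAdd (1:ℝ) = Multiplicative.ofAdd ((1:ℤ):ℝ)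
    simp⟩
  obtain ⟨s, hs⟩ := ((isLocal_iff _).1 LP.loc 2 Nat.prime_two).2 (LP.eta τ)
  have hn : i'.range.Normal := by rw [← hk]; infer_instance
  obtain ⟨m, hm⟩ := hn.conj_mem _ ⟨LN.eta (Multiplicative.ofAdd 1), rfl⟩ s
  obtain ⟨m, rfl⟩ := (eta_bij local_R LN).2 m
  rw [hi', hi'] at hm
  have key : ∀ φ : ℝ →ₗ[ℚ] ℝ, φ m.toAdd = 2 ^ (1 / 2 : ℝ) * φ 1 := by
    intro φ
    obtain ⟨g, hg, -⟩ := LP.univ A local_A (fA φ)
    have hg' : ∀ x, g (LP.eta x) = fA φ x := fun x => DFunLike.congr_fun hg x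
    have h1 : g s = ⟨1 / 2, 0⟩ := by
      apply ((isLocal_iff _).1 local_A 2 Nat.prime_two).1
      simp only at hs ⊢
      rw [← map_pow, hs, hg', pow_A]
      ext
      · change (1:ℝ) = _
        norm_num
      · change φ 0 = _
        simp
    have h2 := congrArg g hm
    rw [map_mul, map_mul, map_inv, hg', hg', h1] at h2
    have h3 := congrArg A.b h2
    simp only [mul_b, inv_b, mul_zero, neg_zero, add_zero, zero_add] at h3
    exact h3
  have k1 := key LinearMap.id
  simp only [LinearMap.id_coe, id_eq, mul_one] at k1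
  obtain ⟨ψ, hψ⟩ : ∃ ψ : Module.Dual ℚ ℝ, ψ 1 ≠ 0 := by
    by_contra hc
    push Not at hc
    exact one_ne_zero ((Module.forall_dual_apply_eq_zero_iff ℚ (1:ℝ)).1 hc)
  have k2 := key ((Algebra.linearMap ℚ ℝ).comp ψ)
  simp only [LinearMap.comp_apply, Algebra.linearMap_apply, eq_ratCast] at k2
  apply irrational_sqrt_two
  refine ⟨ψ m.toAdd / ψ 1, ?_⟩
  have : ((ψ 1 : ℚ) : ℝ) ≠ 0 := by exact_mod_cast hψ
  rw [Real.sqrt_eq_rpow]
  push_cast
  rw [k2]
  field_simp

end Pool.Agent.Results.MP_a437dc_al.No
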